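import Pool.Agent.Helper66.PLM.Tree

/-! Objects, operations, generic branches. -/

open Ordinal Pool.Agent.Helper66.PLR

namespace Pool.Agent.Helper66.PLM

variable {T : Set (Ordinal.{0} × (Ordinal.{0} → Ordinal.{0}))} {κ : Ordinal.{0}}

/-- the properties of `q ⊩ α ∈ Ċ` below `p0`, for a name of a club -/
structure ClubRel (p0 : Cd T κ) (Φ : Cd T κ → Ordinal.{0} → Prop) : Prop where
  mono : ∀ r r' α, r' ≤ r → Φ r α → Φ r' α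
  unbdd : ∀ r ≤ p0, ∀ β < ω₁, ∃ r' ≤ r, ∃ α, β < α ∧ α < ω₁ ∧ Φ r' α
  closed : ∀ l < ω₁, Order.IsSuccLimit l → ∀ r ≤ p0,
    (∀ β < l, ∀ r' ≤ r, ∃ r'' ≤ r', ∃ α, β < α ∧ α < l ∧ Φ r'' α) → Φ r l

/-- `p0` forces that `otp (π[α] ∩ η)` is the next splitting level and `otp (π[α] ∩ η')` the least
value there for stationary many `α` -/
def Good (p0 : Cd T κ) (η η' : Ordinal.{0}) : Prop :=
  ∀ Φ, ClubRel p0 Φ → ∀ q ≤ p0, ∃ r ≤ q, Φ r r.len ∧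
    Otp (img r.c r.len η) (dl T (r.len, r.s)) ∧ Otp (img r.c r.len η') (av T (r.len, r.s))

/-- objects -/
inductive Ob (T : Set (Ordinal.{0} × (Ordinal.{0} → Ordinal.{0}))) (κ : Ordinal.{0}) : Type 1
  | o (α : Ordinal.{0}) : Ob T κ
  | t (u : Ordinal.{0} × (Ordinal.{0} → Ordinal.{0})) : Ob T κ
  | p (q : Cd T κ) : Ob T κ
  | d (D : Set (Ordinal.{0} × (Ordinal.{0} → Ordinal.{0}))) : Ob T κ

/-- compatible nodes -/
def Comp (u v : Ordinal.{0} × (Ordinal.{0} → Ordinal.{0})) : Prop :=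
  ∀ β, β < u.1 → β < v.1 → u.2 β = v.2 β

/-- projection of the conditions below `p` with `Ψ` to the tree -/
def proj (p : Cd T κ) (Ψ : Cd T κ → Prop) : Set (Ordinal.{0} × (Ordinal.{0} → Ordinal.{0})) :=
  {u | u ∈ T ∧ ((∃ p' ≤ p, Ψ p' ∧ p'.len = u.1 ∧ p'.s = u.2) ∨ ¬ Comp (p.len, p.s) u)}

lemma proj_dense (hT : ClosedTree T) (hκ : 0 < κ) {p : Cd T κ} {Ψ : Cd T κ → Prop}
    (h : ∀ r ≤ p, ∃ r' ≤ r, Ψ r') : ∀ u ∈ T, ∃ v ∈ proj p Ψ, Ext u v := by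
  intro u hu
  by_cases hc : Comp (p.len, p.s) u
  · have hw : ∃ w ∈ T, Ext (p.len, p.s) w ∧ Ext u w := by
      rcases le_total p.len u.1 with h1 | h1
      · exact ⟨u, hu, ⟨h1, fun β hβ => (hc β hβ (lt_of_lt_of_le hβ h1)).symm⟩, Ext.refl u⟩
      · exact ⟨(p.len, p.s), p.mem, Ext.refl _, ⟨h1, fun β hβ => hc β (lt_of_lt_of_le hβ h1) hβ⟩⟩
    obtain ⟨w, hwT, h1, h2⟩ := hw
    obtain ⟨r, hr, hr1, hr2, _⟩ := cd_ext hκ p hT hwT h1 hκ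
    obtain ⟨r', hr', hΨ⟩ := h r hr
    refine ⟨(r'.len, r'.s), ⟨r'.mem, Or.inl ⟨r', hr'.trans hr, hΨ, rfl, rfl⟩⟩, h2.trans ?_⟩
    have e : (r.len, r.s) = w := Prod.ext hr1 hr2
    rw [← e]
    exact ⟨hr'.1, hr'.2.1⟩
  · exact ⟨u, ⟨hu, Or.inr hc⟩, Ext.refl u⟩

lemma proj_sub (p : Cd T κ) (Ψ : Cd T κ → Prop) : ∀ u ∈ proj p Ψ, u ∈ T := fun _ hu => hu.1

/-- the predicates on conditions that are needed -/
def PS (Q : Cd T κ → Ordinal.{0} → Ordinal.{0} → Cd T κ)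
    (Φ : Cd T κ → Ordinal.{0} → Ordinal.{0} → Cd T κ → Ordinal.{0} → Prop) :
    List (Ob T κ) → Cd T κ → Prop
  | [Ob.o η, Ob.o η', Ob.p q] => fun p' => ∃ p'' ≤ q, p' ≤ Q p'' η η'
  | [Ob.o η, Ob.o η', Ob.p ps, Ob.o β] => fun p' => ∃ α, β < α ∧ α < ω₁ ∧ Φ ps η η' p' α
  | _ => fun _ => True

/-- one step in the construction of the generic branch -/
noncomputable def st (T : Set (Ordinal.{0} × (Ordinal.{0} → Ordinal.{0})))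
    (u : Ordinal.{0} × (Ordinal.{0} → Ordinal.{0})) :
    Ob T κ → Ordinal.{0} × (Ordinal.{0} → Ordinal.{0})
  | Ob.d D => Classical.epsilon fun v => v ∈ T ∧ Ext u v ∧
      ((∃ w, w ∈ D ∧ w ∈ T ∧ Ext u w) → v ∈ D)
  | Ob.o β => Classical.epsilon fun v => v ∈ T ∧ Ext u v ∧ (β < ω₁ → β ≤ v.1)
  | _ => u

/-- the operations -/
noncomputable def gg (root : Cd T κ) (Q : Cd T κ → Ordinal.{0} → Ordinal.{0} → Cd T κ)
    (Φ : Cd T κ → Ordinal.{0} → Ordinal.{0} → Cd T κ → Ordinal.{0} → Prop)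
    (en : Ordinal.{0} → ℕ → Ordinal.{0}) : ℕ → List (Ob T κ) → Ob T κ
  | 0, [] => Ob.p root
  | 1, [] => Ob.t (root.len, root.s)
  | 2, [Ob.o α] => Ob.o (α + 1)
  | 3, [Ob.t u] => Ob.o u.1
  | 4, [Ob.p q] => Ob.o q.len
  | 5, [Ob.t u, x] => Ob.t (st T u x)
  | 6, Ob.p q :: L => Ob.d (proj q (PS Q Φ L))
  | 7, Ob.p q :: Ob.t u :: L => Ob.p (@Classical.epsilon _ ⟨root⟩ fun p' =>
      p' ≤ q ∧ PS Q Φ L p' ∧ p'.len = u.1 ∧ p'.s = u.2)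
  | 8, [Ob.o η, Ob.o η', Ob.p q, Ob.p p'] => Ob.p (@Classical.epsilon _ ⟨root⟩ fun p'' =>
      p'' ≤ q ∧ p' ≤ Q p'' η η')
  | 9, [Ob.o η, Ob.o η', Ob.p ps, Ob.o β, Ob.p p'] => Ob.o (Classical.epsilon fun α =>
      β < α ∧ α < ω₁ ∧ Φ ps η η' p' α)
  | 10, [Ob.p q, Ob.t u, Ob.o γ] => Ob.p (@Classical.epsilon _ ⟨root⟩ fun p' =>
      p' ≤ q ∧ p'.len = u.1 ∧ p'.s = u.2 ∧ (q.len < u.1 → p'.c q.len = γ))
  | 11, [Ob.p q, Ob.o ξ] => Ob.o (q.c ξ)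
  | k + 12, [Ob.o α] => Ob.o (en α k)
  | _, _ => Ob.o 0

lemma st_spec (hT : PerfectTree T) {u : Ordinal.{0} × (Ordinal.{0} → Ordinal.{0})} (hu : u ∈ T)
    (x : Ob T κ) : st T u x ∈ T ∧ Ext u (st T u x) ∧
      (∀ D, x = Ob.d D → (∃ w, w ∈ D ∧ w ∈ T ∧ Ext u w) → st T u x ∈ D) ∧
      ∀ β, x = Ob.o β → β < ω₁ → β ≤ (st T u x).1 := by
  cases x with
  | t v => exact ⟨hu, Ext.refl u, (fun D h => by cases h), (fun β h => by cases h)⟩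
  | p q => exact ⟨hu, Ext.refl u, (fun D h => by cases h), (fun β h => by cases h)⟩
  | d D =>
    have hex : ∃ v, v ∈ T ∧ Ext u v ∧ ((∃ w, w ∈ D ∧ w ∈ T ∧ Ext u w) → v ∈ D) := by
      by_cases h : ∃ w, w ∈ D ∧ w ∈ T ∧ Ext u w
      · obtain ⟨w, h1, h2, h3⟩ := h
        exact ⟨w, h2, h3, fun _ => h1⟩
      · exact ⟨u, hu, Ext.refl u, fun h' => absurd h' h⟩
    have hs := Classical.epsilon_spec hex
    exact ⟨hs.1, hs.2.1, (fun D' h => by cases h; exact hs.2.2), (fun β h => by cases h)⟩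
  | o β =>
    have hex : ∃ v, v ∈ T ∧ Ext u v ∧ (β < ω₁ → β ≤ v.1) := by
      by_cases h : β < ω₁
      · obtain ⟨s, hs, hs2⟩ := node_ext hT hu (η := max u.1 β) (le_max_left _ _)
          (max_lt (hT.tree.node u hu).1 h)
        exact ⟨_, hs, hs2, fun _ => le_max_right _ _⟩
      · exact ⟨u, hu, Ext.refl u, fun h' => absurd h' h⟩
    have hs := Classical.epsilon_spec hex
    exact ⟨hs.1, hs.2.1, (fun D' h => by cases h), (fun β h => by cases h; exact hs.2.2)⟩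

end Pool.Agent.Helper66.PLM
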