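import Pool.Agent.Helper66.PLM.Core0

/-! The hulls `X ρ`, the generic branch. -/

open Ordinal Pool.Agent.Helper66.PLR

namespace Pool.Agent.Helper66.PLM

variable {T : Set (Ordinal.{0} × (Ordinal.{0} → Ordinal.{0}))} {κ : Ordinal.{0}}

/-- closure properties of a set of objects -/
structure Clo (root : Cd T κ) (Q : Cd T κ → Ordinal.{0} → Ordinal.{0} → Cd T κ)
    (Φ : Cd T κ → Ordinal.{0} → Ordinal.{0} → Cd T κ → Ordinal.{0} → Prop)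
    (en : Ordinal.{0} → ℕ → Ordinal.{0}) (X : Set (Ob T κ)) : Prop where
  ap : ∀ k L, (∀ x ∈ L, x ∈ X) → gg root Q Φ en k L ∈ X

variable {root : Cd T κ} {Q : Cd T κ → Ordinal.{0} → Ordinal.{0} → Cd T κ}
    {Φ : Cd T κ → Ordinal.{0} → Ordinal.{0} → Cd T κ → Ordinal.{0} → Prop}
    {en : Ordinal.{0} → ℕ → Ordinal.{0}} {X : Set (Ob T κ)}

lemma Clo.root' (h : Clo root Q Φ en X) : Ob.p root ∈ X :=
  h.ap 0 [] (by simp)

lemma Clo.rootn (h : Clo root Q Φ en X) : Ob.t (root.len, root.s) ∈ X :=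
  h.ap 1 [] (by simp)

lemma Clo.succ (h : Clo root Q Φ en X) {α : Ordinal.{0}} (hα : Ob.o α ∈ X) : Ob.o (α + 1) ∈ X :=
  h.ap 2 [Ob.o α] (by simp [hα])

lemma Clo.lent (h : Clo root Q Φ en X) {u : Ordinal.{0} × (Ordinal.{0} → Ordinal.{0})}
    (hu : Ob.t u ∈ X) : Ob.o u.1 ∈ X :=
  h.ap 3 [Ob.t u] (by simp [hu])

lemma Clo.lenp (h : Clo root Q Φ en X) {q : Cd T κ} (hq : Ob.p q ∈ X) : Ob.o q.len ∈ X :=
  h.ap 4 [Ob.p q] (by simp [hq])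

lemma Clo.stX (h : Clo root Q Φ en X) {u : Ordinal.{0} × (Ordinal.{0} → Ordinal.{0})}
    (hu : Ob.t u ∈ X) {x : Ob T κ} (hx : x ∈ X) : Ob.t (st T u x) ∈ X :=
  h.ap 5 [Ob.t u, x] (by simp [hu, hx])

lemma Clo.projX (h : Clo root Q Φ en X) {q : Cd T κ} (hq : Ob.p q ∈ X) {L : List (Ob T κ)}
    (hL : ∀ x ∈ L, x ∈ X) : Ob.d (proj q (PS Q Φ L)) ∈ X :=
  h.ap 6 (Ob.p q :: L) (by
    intro x hx
    rcases List.mem_cons.1 hx with rfl | hx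
    · exact hq
    · exact hL x hx)

lemma Clo.wit (h : Clo root Q Φ en X) {q : Cd T κ} (hq : Ob.p q ∈ X) {L : List (Ob T κ)}
    (hL : ∀ x ∈ L, x ∈ X) {u : Ordinal.{0} × (Ordinal.{0} → Ordinal.{0})} (hu : Ob.t u ∈ X)
    (hex : ∃ p' ≤ q, PS Q Φ L p' ∧ p'.len = u.1 ∧ p'.s = u.2) :
    ∃ p', Ob.p p' ∈ X ∧ p' ≤ q ∧ PS Q Φ L p' ∧ p'.len = u.1 ∧ p'.s = u.2 := by
  refine ⟨_, h.ap 7 (Ob.p q :: Ob.t u :: L) ?_, Classical.epsilon_spec hex⟩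
  intro x hx
  rcases List.mem_cons.1 hx with rfl | hx
  · exact hq
  · rcases List.mem_cons.1 hx with rfl | hx
    · exact hu
    · exact hL x hx

lemma Clo.wit2 (h : Clo root Q Φ en X) {q p' : Cd T κ} {η η' : Ordinal.{0}} (h1 : Ob.o η ∈ X)
    (h2 : Ob.o η' ∈ X) (hq : Ob.p q ∈ X) (hp : Ob.p p' ∈ X) (hex : ∃ p'' ≤ q, p' ≤ Q p'' η η') :
    ∃ p'', Ob.p p'' ∈ X ∧ p'' ≤ q ∧ p' ≤ Q p'' η η' :=
  ⟨_, h.ap 8 [Ob.o η, Ob.o η', Ob.p q, Ob.p p'] (by simp [h1, h2, hq, hp]),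
    Classical.epsilon_spec hex⟩

lemma Clo.wit3 (h : Clo root Q Φ en X) {ps p' : Cd T κ} {η η' β : Ordinal.{0}} (h1 : Ob.o η ∈ X)
    (h2 : Ob.o η' ∈ X) (hps : Ob.p ps ∈ X) (hβ : Ob.o β ∈ X) (hp : Ob.p p' ∈ X)
    (hex : ∃ α, β < α ∧ α < ω₁ ∧ Φ ps η η' p' α) :
    ∃ α, Ob.o α ∈ X ∧ β < α ∧ α < ω₁ ∧ Φ ps η η' p' α :=
  ⟨_, h.ap 9 [Ob.o η, Ob.o η', Ob.p ps, Ob.o β, Ob.p p'] (by simp [h1, h2, hps, hβ, hp]),
    Classical.epsilon_spec hex⟩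

lemma Clo.ext (h : Clo root Q Φ en X) (hκ : 0 < κ) (hT : ClosedTree T) {q : Cd T κ}
    {u : Ordinal.{0} × (Ordinal.{0} → Ordinal.{0})} {γ : Ordinal.{0}} (hq : Ob.p q ∈ X)
    (hu : Ob.t u ∈ X) (hγ : Ob.o γ ∈ X) (huT : u ∈ T) (hqu : Ext (q.len, q.s) u) (hγκ : γ < κ) :
    ∃ p', Ob.p p' ∈ X ∧ p' ≤ q ∧ p'.len = u.1 ∧ p'.s = u.2 ∧ (q.len < u.1 → p'.c q.len = γ) :=
  ⟨_, h.ap 10 [Ob.p q, Ob.t u, Ob.o γ] (by simp [hq, hu, hγ]),
    Classical.epsilon_spec (cd_ext hκ q hT huT hqu hγκ)⟩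

lemma Clo.val (h : Clo root Q Φ en X) {q : Cd T κ} (hq : Ob.p q ∈ X) {ξ : Ordinal.{0}}
    (hξ : Ob.o ξ ∈ X) : Ob.o (q.c ξ) ∈ X :=
  h.ap 11 [Ob.p q, Ob.o ξ] (by simp [hq, hξ])

lemma Clo.enum (h : Clo root Q Φ en X) {α : Ordinal.{0}} (hα : Ob.o α ∈ X) (k : ℕ) :
    Ob.o (en α k) ∈ X :=
  h.ap (k + 12) [Ob.o α] (by simp [hα])

/-- the countable ordinals in a closed countable set form an ordinal -/
lemma Clo.delta (h : Clo root Q Φ en X) (hX : X.Countable)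
    (hen : ∀ α < ω₁, ∀ β < α, ∃ k, en α k = β) (hroot : root.len = 0) :
    ∃ δ < (ω₁ : Ordinal.{0}), Order.IsSuccLimit δ ∧ ∀ α, (α < ω₁ ∧ Ob.o α ∈ X) ↔ α < δ := by
  classical
  set S : Set Ordinal.{0} := {α | α < ω₁ ∧ Ob.o α ∈ X} with hS
  have h0 : (0 : Ordinal.{0}) ∈ S := ⟨Ordinal.omega_pos 1, hroot ▸ h.lenp h.root'⟩
  have hSc : S.Countable := by
    refine Set.Countable.mono ?_ (hX.preimage_of_injOn (f := Ob.o) ?_)
    · intro α hα; exact hα.2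
    · intro a _ b _ hab
      cases hab; rfl
  obtain ⟨f, hf⟩ := hSc.exists_eq_range ⟨0, h0⟩
  have hfS : ∀ n, f n ∈ S := fun n => hf ▸ Set.mem_range_self n
  have hB : (⨆ n, f n) < ω₁ := Ordinal.iSup_lt_omega_one (fun n => (hfS n).1)
  have hb : BddAbove (Set.range f) := ⟨ω₁, by rintro _ ⟨i, rfl⟩; exact (hfS i).1.le⟩
  have hdown : ∀ α ∈ S, ∀ β < α, β ∈ S := by
    intro α hα β hβ
    obtain ⟨k, hk⟩ := hen α hα.1 β hβ
    exact ⟨hβ.trans hα.1, hk ▸ h.enum hα.2 k⟩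
  set δ := sInf {α | α ∉ S} with hδ
  have hne : {α | α ∉ S}.Nonempty := ⟨ω₁, fun h => absurd h.1 (lt_irrefl _)⟩
  have hδS : δ ∉ S := csInf_mem hne
  have hiff : ∀ α, α ∈ S ↔ α < δ := by
    intro α
    constructor
    · intro hα
      by_contra hcon
      rcases (not_lt.1 hcon).eq_or_lt with he | hlt
      · exact hδS (he ▸ hα)
      · exact hδS (hdown α hα δ hlt)
    · intro hα
      by_contra hcon
      exact absurd (csInf_le (OrderBot.bddBelow _) hcon) (not_le.2 hα)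
  refine ⟨δ, ?_, ?_, hiff⟩
  · have h1 : (⨆ n, f n) + 1 ∉ S := by
      intro h1
      rw [hf] at h1
      obtain ⟨n, hn⟩ := h1
      have := le_ciSup hb n
      rw [hn] at this
      exact absurd this (not_le.2 (Order.lt_add_one_iff.2 le_rfl))
    exact (csInf_le (OrderBot.bddBelow _) h1).trans_lt (add_one_lt_omega_one hB)
  · have hpos : 0 < δ := (hiff 0).1 h0
    refine ⟨fun hmin => absurd (hmin hpos.le) (not_le.2 hpos), fun b hcov => ?_⟩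
    have hb1 := (hiff b).2 hcov.lt
    exact hcov.2 (Order.lt_add_one_iff.2 le_rfl)
      ((hiff (b + 1)).1 ⟨add_one_lt_omega_one hb1.1, h.succ hb1.2⟩)

/-- the generic branch for the countable closed set `X` -/
lemma Clo.generic (h : Clo root Q Φ en X) (hT : PerfectTree T) (hX : X.Countable)
    (hroot : root.len = 0) {δ : Ordinal.{0}} (hδ : δ < ω₁) (hlim : Order.IsSuccLimit δ)
    (hiff : ∀ α, (α < ω₁ ∧ Ob.o α ∈ X) ↔ α < δ) :
    ∃ z, (δ, z) ∈ T ∧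
      (∀ D, Ob.d D ∈ X → (∀ u ∈ D, u ∈ T) → (∀ u ∈ T, ∃ v ∈ D, Ext u v) →
        ∃ v ∈ D, Ob.t v ∈ X ∧ Ext v (δ, z)) ∧
      ∀ β < δ, ∃ v ∈ T, Ob.t v ∈ X ∧ β < v.1 ∧ Ext v (δ, z) := by
  classical
  obtain ⟨f, hf⟩ := hX.exists_eq_range ⟨_, h.root'⟩
  have hfX : ∀ n, f n ∈ X := fun n => hf ▸ Set.mem_range_self n
  set t : ℕ → Ordinal.{0} × (Ordinal.{0} → Ordinal.{0}) := fun n =>
    Nat.rec (root.len, root.s) (fun n u => st T u (f n)) n with ht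
  have ht0 : t 0 = (root.len, root.s) := rfl
  have hts : ∀ n, t (n + 1) = st T (t n) (f n) := fun n => rfl
  have htT : ∀ n, t n ∈ T ∧ Ob.t (t n) ∈ X := by
    intro n
    induction n with
    | zero => exact ⟨root.mem, h.rootn⟩
    | succ n ih => exact ⟨(hts n) ▸ (st_spec hT ih.1 (f n)).1, (hts n) ▸ h.stX ih.2 (hfX n)⟩
  have hstep : ∀ n, Ext (t n) (t (n + 1)) := fun n => (hts n) ▸ (st_spec hT (htT n).1 (f n)).2.1
  have hext : ∀ i j, i ≤ j → Ext (t i) (t j) := by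
    intro i j hij
    induction hij with
    | refl => exact Ext.refl _
    | step _ ih => exact ih.trans (hstep _)
  obtain ⟨z, hz, hz2⟩ := union_TB hT.tree (fun n => (t n).1) (fun n => (t n).2)
    (fun n => tb_of_mem hT.tree (htT n).1) (by
      intro i j hij β hβ
      rcases le_total i j with h1 | h1
      · exact (hext i j h1).2 β hβ
      · exact ((hext j i h1).2 β (hβ.trans_le hij)).symm)
  have hb : BddAbove (Set.range fun n => (t n).1) :=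
    ⟨ω₁, by rintro _ ⟨i, rfl⟩; exact (hT.tree.node _ (htT i).1).1.le⟩
  have hlt : ∀ n, (t n).1 < δ := fun n =>
    (hiff _).1 ⟨(hT.tree.node _ (htT n).1).1, h.lent (htT n).2⟩
  have hcof : ∀ β < δ, ∃ n, β < (t n).1 := by
    intro β hβ
    have h1 : β + 1 < δ := hlim.add_one_lt hβ
    have h2 := (hiff _).2 h1
    obtain ⟨n, hn⟩ : Ob.o (β + 1) ∈ Set.range f := hf ▸ h2.2
    refine ⟨n + 1, ?_⟩
    have := (st_spec hT (htT n).1 (f n)).2.2.2 (β + 1) hn h2.1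
    rw [← hts n] at this
    exact Order.add_one_le_iff.1 this
  have hsup : (⨆ n, (t n).1) = δ := by
    apply le_antisymm (ciSup_le' fun n => (hlt n).le)
    by_contra hcon
    obtain ⟨n, hn⟩ := hcof _ (not_le.1 hcon)
    exact absurd (le_ciSup hb n) (not_le.2 hn)
  rw [hsup] at hz
  have hzext : ∀ n, Ext (t n) (δ, z) := fun n => ⟨(hlt n).le, hz2 n⟩
  refine ⟨z, hz.mem hδ, ?_, ?_⟩
  · intro D hD hDT hdense
    obtain ⟨n, hn⟩ : Ob.d D ∈ Set.range f := hf ▸ hD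
    have h1 := (st_spec hT (htT n).1 (f n)).2.2.1 D hn (by
      obtain ⟨v, hv, hv2⟩ := hdense _ (htT n).1
      exact ⟨v, hv, hDT v hv, hv2⟩)
    rw [← hts n] at h1
    exact ⟨_, h1, (htT (n + 1)).2, hzext (n + 1)⟩
  · intro β hβ
    obtain ⟨n, hn⟩ := hcof β hβ
    exact ⟨t n, (htT n).1, (htT n).2, hn, hzext n⟩

end Pool.Agent.Helper66.PLM
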