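import Pool.Agent.Helper66.PLM.Core1
import Pool.Agent.Helper90.PLM.HULL
import Pool.Agent.Helper90.PLM.CARD
import Pool.Agent.Helper90.PLM.OTP

/-! The main step: the next splitting level is given by a canonical function. -/

open Ordinal Pool.Agent.Helper66.PLR Pool.Agent.Helper90.PLM

namespace Pool.Agent.Helper66.PLM

variable {T : Set (Ordinal.{0} × (Ordinal.{0} → Ordinal.{0}))} {κ : Ordinal.{0}}

/-- colour of an object -/
def col : Ob T κ → Set ({u : Ordinal.{0} × (Ordinal.{0} → Ordinal.{0}) // IsNode u} ⊕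
    Set.Iio (ω₁ : Ordinal.{0}))
  | Ob.o α => {a | α < ω₁ ∧ ∃ b : Set.Iio (ω₁ : Ordinal.{0}), a = Sum.inr b ∧ b.1 ≤ α}
  | Ob.d D => {a | (∀ v ∈ D, IsNode v) ∧ ∃ u : {u : Ordinal.{0} × (Ordinal.{0} → Ordinal.{0}) //
      IsNode u}, a = Sum.inl u ∧ u.1 ∈ D}
  | _ => ∅

lemma col_inj (x y : Ob T κ) (hx : (col x).Nonempty) (hxy : col x = col y) : x = y := by
  cases x with
  | t v => exact absurd hx (by simp [col])
  | p q => exact absurd hx (by simp [col])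
  | o α =>
    obtain ⟨_, hα, _⟩ := hx
    have h1 : Sum.inr ⟨α, hα⟩ ∈ col (Ob.o α : Ob T κ) := ⟨hα, ⟨α, hα⟩, rfl, le_rfl⟩
    rw [hxy] at h1
    cases y with
    | t v => exact absurd h1 (by simp [col])
    | p q => exact absurd h1 (by simp [col])
    | d D =>
      obtain ⟨_, u, hu, _⟩ := h1
      cases hu
    | o β =>
      obtain ⟨hβ, b, hb, hb2⟩ := h1
      cases hb
      have h2 : Sum.inr ⟨β, hβ⟩ ∈ col (Ob.o β : Ob T κ) := ⟨hβ, ⟨β, hβ⟩, rfl, le_rfl⟩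
      rw [← hxy] at h2
      obtain ⟨_, b', hb', hb2'⟩ := h2
      cases hb'
      exact congrArg Ob.o (le_antisymm hb2 hb2')
  | d D =>
    obtain ⟨_, hD, u, hu, huD⟩ := hx
    have h1 : ∀ v (hv : IsNode v), v ∈ D → Sum.inl ⟨v, hv⟩ ∈ col (Ob.d D : Ob T κ) :=
      fun v hv hvD => ⟨hD, ⟨v, hv⟩, rfl, hvD⟩
    have h2 := h1 u.1 u.2 huD
    rw [hxy] at h2
    cases y with
    | t v => exact absurd h2 (by simp [col])
    | p q => exact absurd h2 (by simp [col])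
    | o β =>
      obtain ⟨_, b, hb, _⟩ := h2
      cases hb
    | d D' =>
      have hD' := h2.1
      have e : D = D' := by
        ext v
        constructor
        · intro hv
          have h3 := h1 v (hD v hv) hv
          rw [hxy] at h3
          obtain ⟨_, w, hw, hw2⟩ := h3
          cases hw
          exact hw2
        · intro hv
          have h3 : Sum.inl ⟨v, hD' v hv⟩ ∈ col (Ob.d D' : Ob T κ) := ⟨hD', ⟨v, _⟩, rfl, hv⟩
          rw [← hxy] at h3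
          obtain ⟨_, w, hw, hw2⟩ := h3
          cases hw
          exact hw2
      rw [e]

lemma le_of_strictMonoOn {e : Ordinal.{0} → Ordinal.{0}} {ρ : Ordinal.{0}}
    (he : StrictMonoOn e (Set.Iio ρ)) : ∀ ξ < ρ, ξ ≤ e ξ := by
  intro ξ
  induction ξ using WellFoundedLT.induction with
  | _ ξ ih =>
    intro hξ
    by_contra hcon
    have h1 := not_le.1 hcon
    have h2 := ih (e ξ) h1 (h1.trans hξ)
    exact absurd (he (h1.trans hξ) hξ h1) (not_lt.2 h2)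

lemma exists_en : ∃ en : Ordinal.{0} → ℕ → Ordinal.{0}, ∀ α < ω₁, ∀ β < α, ∃ k, en α k = β := by
  have h : ∀ α : Ordinal.{0}, ∃ f : ℕ → Ordinal.{0}, α < ω₁ → ∀ β < α, ∃ k, f k = β := by
    intro α
    by_cases hα : α < ω₁ ∧ 0 < α
    · have := countable_Iio hα.1
      have hc : (Set.Iio α).Countable := Set.to_countable _
      obtain ⟨f, hf⟩ := hc.exists_eq_range ⟨0, hα.2⟩
      refine ⟨f, fun _ β hβ => ?_⟩
      have : β ∈ Set.range f := hf ▸ hβ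
      exact this
    · refine ⟨fun _ => 0, fun h β hβ => ?_⟩
      exact absurd ⟨h, (zero_le (a := β)).trans_lt hβ⟩ hα
  choose en hen using h
  exact ⟨en, hen⟩

/-- The main step. -/
theorem core (hT : PerfectTree T) (hκ : Erdos κ) : ∃ (p0 : Cd T κ) (η η' : Ordinal.{0}),
    Good p0 η η' := by
  classical
  by_contra hno
  have hbad : ∀ (p0 : Cd T κ) (η η' : Ordinal.{0}), ∃ Φ, ClubRel p0 Φ ∧ ∃ q ≤ p0, ∀ r ≤ q,
      Φ r r.len → Otp (img r.c r.len η) (dl T (r.len, r.s)) →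
      ¬ Otp (img r.c r.len η') (av T (r.len, r.s)) := by
    intro p0 η η'
    by_contra hcon
    push Not at hcon
    exact hno ⟨p0, η, η', fun Φ hΦ q hq => hcon Φ hΦ q hq⟩
  choose Φ hΦ Q hQ hb using hbad
  obtain ⟨en, hen⟩ := exists_en
  have hκ0 : 0 < κ := by
    obtain ⟨e, _, h, _⟩ := hκ (fun _ => ∅)
    exact (zero_le (a := _)).trans_lt (h 0 (Ordinal.omega_pos 1))
  -- the root
  have hroot : ∃ root : Cd T κ, root.len = 0 := by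
    obtain ⟨p, hp⟩ := hT.tree.nonempty
    have h0 := hT.tree.down p hp 0 (zero_le (a := _))
    refine ⟨⟨0, cut p.2 0, fun _ => 0, h0, fun β hβ => cut_ge hβ, fun β hβ => hκ0,
      fun _ _ => rfl⟩, rfl⟩
  obtain ⟨root, hroot⟩ := hroot
  set g := gg root Q Φ en with hg
  obtain ⟨i, hi⟩ := st_CARD
  obtain ⟨e, he, heκ, hhom⟩ := hκ (fun s => i '' colF g Ob.o col s)
  have hhom' : ∀ s t : Finset Ordinal.{0}, (∀ ξ ∈ s, ξ < ω₁) → (∀ ξ ∈ t, ξ < ω₁) →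
      s.card = t.card → colF g Ob.o col (s.image e) = colF g Ob.o col (t.image e) :=
    fun s t hs ht hst => hi.image_injective (hhom s t hs ht hst)
  set X : Ordinal.{0} → Set (Ob T κ) := fun ρ => Hull g Ob.o (e '' Set.Iio ρ) with hX
  have hJne : ∀ ρ : Ordinal.{0}, 0 < ρ → (e '' Set.Iio ρ).Nonempty := fun ρ hρ => ⟨e 0, 0, hρ, rfl⟩
  have hClo : ∀ ρ : Ordinal.{0}, 0 < ρ → Clo root Q Φ en (X ρ) := fun ρ hρ =>
    ⟨fun k L hL => st_HULL2 _ g Ob.o _ (hJne ρ hρ) k L hL⟩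
  have hXc : ∀ ρ < (ω₁ : Ordinal.{0}), (X ρ).Countable := by
    intro ρ hρ
    have := countable_Iio hρ
    exact st_HULL3 _ g Ob.o _ ((Set.to_countable (Set.Iio ρ)).image e)
  have hmono : ∀ ρ ρ', ρ ≤ ρ' → X ρ ⊆ X ρ' := by
    rintro ρ ρ' h x ⟨τ, σ, hσ, hx⟩
    refine ⟨τ, σ, fun k => ?_, hx⟩
    obtain ⟨ξ, hξ, he'⟩ := hσ k
    exact ⟨ξ, lt_of_lt_of_le hξ h, he'⟩
  have hdesc : ∀ ρ < (ω₁ : Ordinal.{0}), ∀ x ∈ X ρ, (col x).Nonempty → x ∈ X ω := fun ρ hρ x hx hc =>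
    st_HULL4 _ _ g Ob.o col e he col_inj hhom' ρ hρ x hx hc
  have hω : (0 : Ordinal.{0}) < ω := Ordinal.omega0_pos
  have hω1 : (ω : Ordinal.{0}) < ω₁ := Ordinal.omega0_lt_omega_one
  have hCw := hClo ω hω
  obtain ⟨δ, hδ, hlim, hiff⟩ := hCw.delta (hXc ω hω1) hen hroot
  obtain ⟨z, hz, hgen, hcof⟩ := hCw.generic hT (hXc ω hω1) hroot hδ hlim hiff
  set ρ : Ordinal.{0} := max ω (max (dl T (δ, z)) (av T (δ, z)) + 1) with hρ
  have hρ1 : ρ < ω₁ := max_lt hω1 (add_one_lt_omega_one (max_lt (dl_lt hT hz) (av_lt hT hz)))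
  have hρω : ω ≤ ρ := le_max_left _ _
  have hdρ : dl T (δ, z) < ρ := lt_of_lt_of_le (Order.lt_add_one_iff.2 (le_max_left _ _))
    (le_max_right _ _)
  have haρ : av T (δ, z) < ρ := lt_of_lt_of_le (Order.lt_add_one_iff.2 (le_max_right _ _))
    (le_max_right _ _)
  have hCX := hClo ρ (hω.trans_le hρω)
  have hsub : X ω ⊆ X ρ := hmono _ _ hρω
  have hord : ∀ α < (ω₁ : Ordinal.{0}), Ob.o α ∈ X ρ → α < δ := by
    intro α hα hαX
    exact (hiff α).1 ⟨hα, hdesc ρ hρ1 _ hαX ⟨Sum.inr ⟨α, hα⟩, hα, ⟨α, hα⟩, rfl, le_rfl⟩⟩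
  have hdD : ∀ D, Ob.d D ∈ X ρ → (∀ u ∈ D, u ∈ T) → (∀ u ∈ T, ∃ v ∈ D, Ext u v) →
      ∃ v ∈ D, Ob.t v ∈ X ρ ∧ Ext v (δ, z) := by
    intro D hD hDT hdense
    obtain ⟨v0, hv0, _⟩ := hdense _ root.mem
    have hN : ∀ v ∈ D, IsNode v := fun v hv => hT.tree.node v (hDT v hv)
    have h1 : Ob.d D ∈ X ω := hdesc ρ hρ1 _ hD ⟨Sum.inl ⟨v0, hN v0 hv0⟩, hN, ⟨v0, _⟩, rfl, hv0⟩
    obtain ⟨v, h2, h3, h4⟩ := hgen D h1 hDT hdense
    exact ⟨v, h2, hsub h3, h4⟩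
  have hωκ : ω₁ ≤ κ := by
    by_contra hcon
    have h1 := not_le.1 hcon
    exact absurd (heκ κ h1) (not_lt.2 (le_of_strictMonoOn he κ h1))
  set A : Set Ordinal.{0} := {ζ | ζ < κ ∧ Ob.o ζ ∈ X ρ} with hA
  have heA : ∀ ξ < ρ, e ξ ∈ A := fun ξ hξ =>
    ⟨heκ ξ (hξ.trans hρ1), st_HULL1 _ g Ob.o _ _ ⟨ξ, hξ, rfl⟩⟩
  have heρ : StrictMonoOn e (Set.Iio ρ) := he.mono (fun ξ hξ => lt_trans hξ hρ1)
  obtain ⟨η, hηA, hη⟩ := st_OTP2 A κ ρ _ e (fun a ha => ha.1) heρ heA hdρ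
  obtain ⟨η', hηA', hη'⟩ := st_OTP2 A κ ρ _ e (fun a ha => ha.1) heρ heA haρ
  -- the first condition
  have hL1 : ∀ x ∈ [Ob.o η, Ob.o η', Ob.p root], x ∈ X ρ := by
    simp [hηA.2, hηA'.2, hCX.root']
  obtain ⟨v1, hv1, hv1X, hv1z⟩ := hdD _ (hCX.projX hCX.root' hL1) (proj_sub _ _)
    (proj_dense hT.tree hκ0 (fun r hr => ⟨Q r η η', hQ r η η', r, hr, le_rfl⟩))
  have hv1' : ∃ p' ≤ root, PS Q Φ [Ob.o η, Ob.o η', Ob.p root] p' ∧ p'.len = v1.1 ∧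
      p'.s = v1.2 := by
    rcases hv1.2 with h | h
    · exact h
    · refine absurd (fun β hβ _ => ?_) h
      change β < root.len at hβ
      rw [hroot] at hβ
      exact absurd hβ (not_lt.2 (zero_le (a := β)))
  obtain ⟨p1, hp1X, hp1r, hp1Q, hp1l, hp1s⟩ := hCX.wit hCX.root' hL1 hv1X hv1'
  obtain ⟨ps, hpsX, hpsr, hp1ps⟩ := hCX.wit2 hηA.2 hηA'.2 hCX.root' hp1X hp1Q
  have hp1z : Ext (p1.len, p1.s) (δ, z) := by
    rw [hp1l, hp1s]; exact hv1z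
  -- the steps
  have hstep : ∀ γ ∈ A, ∀ q : Cd T κ, Ob.p q ∈ X ρ → Ext (q.len, q.s) (δ, z) → q ≤ p1 →
      ∃ q' : Cd T κ, (Ob.p q' ∈ X ρ ∧ Ext (q'.len, q'.s) (δ, z)) ∧ q' ≤ q ∧
        (∃ ξ < q'.len, q'.c ξ = γ) ∧
        (γ < δ → γ < q'.len ∧ ∃ α, γ < α ∧ α < δ ∧ Φ ps η η' q' α) := by
    intro γ hγ q hqX hqz hqp
    have hql : q.len < δ := hord _ (hT.tree.node _ q.mem).1 (hCX.lenp hqX)
    obtain ⟨v, hvT, hvX, hv1, hvz⟩ := hcof (max q.len (if γ < δ then γ else 0))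
      (max_lt hql (by split_ifs with h; exacts [h, (zero_le (a := _)).trans_lt hql]))
    have hqv : Ext (q.len, q.s) v := by
      refine ⟨(le_max_left _ _).trans hv1.le, fun β hβ => ?_⟩
      rw [← hvz.2 β (lt_of_lt_of_le hβ ((le_max_left _ _).trans hv1.le))]
      exact hqz.2 β hβ
    obtain ⟨q1, hq1X, hq1q, hq1l, hq1s, hq1c⟩ := hCX.ext hκ0 hT.tree hqX (hsub hvX) hγ.2 hvT hqv hγ.1
    have hq1z : Ext (q1.len, q1.s) (δ, z) := by rw [hq1l, hq1s]; exact hvz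
    have hqlt : q.len < q1.len := by rw [hq1l]; exact (le_max_left _ _).trans_lt hv1
    have hc1 : ∃ ξ < q1.len, q1.c ξ = γ := ⟨q.len, hqlt, hq1c (hq1l ▸ hqlt)⟩
    by_cases hγδ : γ < δ
    · have hL2 : ∀ x ∈ [Ob.o η, Ob.o η', Ob.p ps, Ob.o γ], x ∈ X ρ := by
        simp [hηA.2, hηA'.2, hpsX, hγ.2]
      have hq1ps : q1 ≤ ps := hq1q.trans (hqp.trans (hp1ps.trans (hQ _ _ _)))
      obtain ⟨v2, hv2, hv2X, hv2z⟩ := hdD _ (hCX.projX hq1X hL2) (proj_sub _ _)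
        (proj_dense hT.tree hκ0 (fun r hr =>
          (hΦ ps η η').unbdd r (hr.trans hq1ps) γ (hγδ.trans hδ)))
      have hv2' : ∃ p' ≤ q1, PS Q Φ [Ob.o η, Ob.o η', Ob.p ps, Ob.o γ] p' ∧ p'.len = v2.1 ∧
          p'.s = v2.2 := by
        rcases hv2.2 with h | h
        · exact h
        · refine absurd (fun β hβ hβ2 => ?_) h
          exact (hq1z.2 β hβ).symm.trans (hv2z.2 β hβ2)
      obtain ⟨q2, hq2X, hq2q, hq2Q, hq2l, hq2s⟩ := hCX.wit hq1X hL2 hv2X hv2'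
      obtain ⟨α, hαX, hα1, hα2, hα3⟩ := hCX.wit3 hηA.2 hηA'.2 hpsX hγ.2 hq2X hq2Q
      have hq2z : Ext (q2.len, q2.s) (δ, z) := by rw [hq2l, hq2s]; exact hv2z
      refine ⟨q2, ⟨hq2X, hq2z⟩, hq2q.trans hq1q, ?_, fun _ => ⟨?_, α, hα1, hord α hα2 hαX, hα3⟩⟩
      · obtain ⟨ξ, h1, h2⟩ := hc1
        exact ⟨ξ, h1.trans_le hq2q.1, by rw [hq2q.2.2 ξ h1, h2]⟩
      · rw [if_pos hγδ] at hv1
        refine lt_of_lt_of_le ?_ hq2q.1
        rw [hq1l]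
        exact (le_max_right _ _).trans_lt hv1
    · exact ⟨q1, ⟨hq1X, hq1z⟩, hq1q, hc1, fun h => absurd h hγδ⟩
  -- the sequence
  have hAc : A.Countable := by
    refine Set.Countable.mono ?_ ((hXc ρ hρ1).preimage_of_injOn (f := Ob.o) ?_)
    · intro α hα; exact hα.2
    · intro a _ b _ hab
      cases hab; rfl
  obtain ⟨fA, hfA⟩ := hAc.exists_eq_range ⟨_, heA 0 (hω.trans_le hρω)⟩
  have hfAm : ∀ n, fA n ∈ A := fun n => hfA ▸ Set.mem_range_self n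
  let St := {q : Cd T κ // (Ob.p q ∈ X ρ ∧ Ext (q.len, q.s) (δ, z)) ∧ q ≤ p1}
  have hstep' : ∀ (n : ℕ) (q : St), ∃ q' : St, q'.1 ≤ q.1 ∧ (∃ ξ < q'.1.len, q'.1.c ξ = fA n) ∧
      (fA n < δ → fA n < q'.1.len ∧ ∃ α, fA n < α ∧ α < δ ∧ Φ ps η η' q'.1 α) := by
    intro n q
    obtain ⟨q', h1, h2, h3, h4⟩ := hstep _ (hfAm n) q.1 q.2.1.1 q.2.1.2 q.2.2
    exact ⟨⟨q', h1, h2.trans q.2.2⟩, h2, h3, h4⟩
  choose F hF1 hF2 hF3 using hstep'
  let qs : ℕ → St := fun n => Nat.rec ⟨p1, ⟨hp1X, hp1z⟩, le_rfl⟩ (fun n q => F n q) n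
  have hqs : ∀ n, qs (n + 1) = F n (qs n) := fun n => rfl
  have hanti : Antitone fun n => (qs n).1 := antitone_nat_of_succ_le fun n => by
    rw [hqs]; exact hF1 n (qs n)
  obtain ⟨r, hr1, hr2, hr3⟩ := cd_lim hT.tree (fun n => (qs n).1) hanti
  have hbdd : BddAbove (Set.range fun n => (qs n).1.len) :=
    ⟨ω₁, by rintro _ ⟨n, rfl⟩; exact (hT.tree.node _ (qs n).1.mem).1.le⟩
  have hnA : ∀ γ < δ, γ ∈ A := fun γ hγ =>
    ⟨(hγ.trans hδ).trans_le hωκ, hsub ((hiff γ).2 hγ).2⟩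
  have hrlen : r.len = δ := by
    rw [hr2]
    apply le_antisymm
    · exact ciSup_le' fun n => (hord _ (hT.tree.node _ (qs n).1.mem).1
        (hCX.lenp (qs n).2.1.1)).le
    · by_contra hcon
      have h1 := not_le.1 hcon
      obtain ⟨n, hn⟩ : (⨆ n, (qs n).1.len) ∈ Set.range fA := hfA ▸ hnA _ h1
      have h2 := (hF3 n (qs n) (hn ▸ h1)).1
      rw [← hqs, hn] at h2
      exact absurd (le_ciSup hbdd (n + 1)) (not_le.2 h2)
  have hz0 : ∀ β, δ ≤ β → z β = 0 := (hT.tree.node _ hz).2.2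
  have hrs : r.s = z := by
    funext β
    by_cases hβ : β < δ
    · obtain ⟨n, h1, h2, _⟩ := hr3 β (hrlen ▸ hβ)
      rw [h2]
      exact ((qs n).2.1.2.2 β h1).symm
    · rw [hz0 β (not_lt.1 hβ), r.szero β (hrlen ▸ not_lt.1 hβ)]
  have himg : ∀ η : Ordinal.{0}, η ∈ A → img r.c r.len η = {a | a ∈ A ∧ a < η} := by
    intro η hη
    ext ζ
    constructor
    · rintro ⟨h1, ξ, h2, h3⟩
      refine ⟨⟨h1.trans hη.1, ?_⟩, h1⟩
      obtain ⟨n, h4, _, h5⟩ := hr3 ξ h2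
      rw [← h3, h5]
      exact hCX.val (qs n).2.1.1 (hnA ξ (hrlen ▸ h2)).2
    · rintro ⟨h1, h2⟩
      refine ⟨h2, ?_⟩
      obtain ⟨n, hn⟩ : ζ ∈ Set.range fA := hfA ▸ h1
      obtain ⟨ξ, h3, h4⟩ := hF2 n (qs n)
      rw [← hqs] at h3 h4
      refine ⟨ξ, h3.trans_le (hr1 (n + 1)).1, ?_⟩
      rw [(hr1 (n + 1)).2.2 ξ h3, h4, hn]
  have hrp1 : r ≤ p1 := hr1 0
  have hrps : r ≤ ps := hrp1.trans (hp1ps.trans (hQ _ _ _))
  have hΦr : Φ ps η η' r r.len := by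
    rw [hrlen]
    refine (hΦ ps η η').closed δ hδ hlim r hrps (fun β hβ r' hr' => ⟨r', le_rfl, ?_⟩)
    obtain ⟨n, hn⟩ : β ∈ Set.range fA := hfA ▸ hnA β hβ
    obtain ⟨_, α, h1, h2, h3⟩ := hF3 n (qs n) (hn ▸ hβ)
    rw [← hqs] at h3
    rw [hn] at h1
    exact ⟨α, h1, h2, (hΦ ps η η').mono _ _ _ (hr'.trans (hr1 (n + 1))) h3⟩
  have e1 : (r.len, r.s) = (δ, z) := by rw [hrlen, hrs]
  refine hb ps η η' r (hrp1.trans hp1ps) hΦr ?_ ?_
  · rw [himg η hηA, e1]; exact hη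
  · rw [himg η' hηA', e1]; exact hη'

end Pool.Agent.Helper66.PLM
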