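import Pool.Agent.Helper66.PLR.Defs

/-!
# Perfect subsets of the generalized Baire space under `MA⁺⁺(σ-closed)`: definitions
-/

open Ordinal Pool.Agent.Helper66.PLR

namespace Pool.Agent.Helper66.PLM

/-- A nonempty `<ω₁`-closed perfect subtree of `^{<ω₁}ω₁`: every node has two incomparable
extensions (here: two extensions that differ at some place). -/
structure PerfectTree (T : Set (Ordinal.{0} × (Ordinal.{0} → Ordinal.{0}))) : Prop where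
  tree : ClosedTree T
  perfect : ∀ p ∈ T, ∃ q ∈ T, ∃ r ∈ T, p.1 ≤ q.1 ∧ cut q.2 p.1 = p.2 ∧ p.1 ≤ r.1 ∧
    cut r.2 p.1 = p.2 ∧ ∃ β, β < q.1 ∧ β < r.1 ∧ q.2 β ≠ r.2 β

/-- `S` meets every closed unbounded subset of `ω₁`. -/
def Stat (S : Set Ordinal.{0}) : Prop := ∀ C, IsClubIn C → ∃ γ ∈ C, γ ∈ S

/-- The set `S` of ordinals has order type `γ`. -/
def Otp (S : Set Ordinal.{0}) (γ : Ordinal.{0}) : Prop :=
  ∃ e : Ordinal.{0} → Ordinal.{0}, StrictMonoOn e (Set.Iio γ) ∧ e '' Set.Iio γ = S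

/-- `π[α] ∩ η`. -/
def img (π : Ordinal.{0} → Ordinal.{0}) (α η : Ordinal.{0}) : Set Ordinal.{0} :=
  {ζ | ζ < η ∧ ∃ ξ < α, π ξ = ζ}

/-- The partition relation `κ → (ω₁)^{<ω}_λ`, `λ = 2^{2^ω}` (true for measurable `κ`). -/
def Erdos (κ : Ordinal.{0}) : Prop :=
  ∀ F : Finset Ordinal.{0} → Set (Set ℕ), ∃ e : Ordinal.{0} → Ordinal.{0},
    StrictMonoOn e (Set.Iio ω₁) ∧ (∀ ξ < ω₁, e ξ < κ) ∧
    ∀ s t : Finset Ordinal.{0}, (∀ ξ ∈ s, ξ < ω₁) → (∀ ξ ∈ t, ξ < ω₁) → s.card = t.card →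
      F (s.image e) = F (t.image e)

section Forcing

variable {P : Type 1} [PartialOrder P]

/-- `q ⊩ α ∈ Ṡ`, where `Ṡ` is the name of the set `{α | ∃ p ∈ G, S p α}`. -/
def Frc (S : P → Ordinal.{0} → Prop) (q : P) (α : Ordinal.{0}) : Prop :=
  ∀ r ≤ q, ∃ r' ≤ r, ∃ p, r' ≤ p ∧ S p α

/-- `⊩ Ċ` is a closed unbounded subset of `ω₁`. -/
structure FrcClub (C : P → Ordinal.{0} → Prop) : Prop where
  unbdd : ∀ β < ω₁, ∀ p : P, ∃ q ≤ p, ∃ α, β < α ∧ α < ω₁ ∧ Frc C q α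
  closed : ∀ l < ω₁, Order.IsSuccLimit l → ∀ p : P,
    (∀ β < l, ∀ q ≤ p, ∃ r ≤ q, ∃ α, β < α ∧ α < l ∧ Frc C r α) → Frc C p l

/-- `⊩ Ṡ` is a stationary subset of `ω₁`. -/
def FrcStat (S : P → Ordinal.{0} → Prop) : Prop :=
  ∀ C : P → Ordinal.{0} → Prop, FrcClub C → ∀ p : P, ∃ q ≤ p, ∃ α < ω₁, Frc C q α ∧ Frc S q α

end Forcing

/-- The forcing axiom `MA⁺⁺(σ-closed)`: for every `σ`-closed partial order `P` (which is a set),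
all dense sets `D β` and all names `Ṡ β` of stationary subsets of `ω₁` (`β < ω₁`) there is a filter
`G` that meets every `D β` and for which every set `Ṡ β[G] = {α | ∃ p ∈ G, S β p α}` is
stationary. -/
def MApp : Prop :=
  ∀ (P : Type 1) [PartialOrder P] [Small.{0} P] [Nonempty P],
    (∀ f : ℕ → P, Antitone f → ∃ q, ∀ n, q ≤ f n) →
    ∀ D : Ordinal.{0} → Set P, (∀ β < ω₁, ∀ p, ∃ q ∈ D β, q ≤ p) →
    ∀ S : Ordinal.{0} → P → Ordinal.{0} → Prop, (∀ β < ω₁, FrcStat (S β)) →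
    ∃ G : Set P, (∀ p ∈ G, ∀ q, p ≤ q → q ∈ G) ∧ (∀ p ∈ G, ∀ q ∈ G, ∃ r ∈ G, r ≤ p ∧ r ≤ q) ∧
      (∀ β < ω₁, ∃ p ∈ G, p ∈ D β) ∧ ∀ β < ω₁, Stat {α | ∃ p ∈ G, S β p α}

end Pool.Agent.Helper66.PLM
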