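import Pool.Agent.Helper66.PLM.Names
import Pool.Agent.Helper66.PLR.Cont
import Pool.Agent.Helper59.PLM.INN
import Pool.Agent.Helper59.PLM.SML

/-! Assembly. -/

open Ordinal Pool.Agent.Helper66.PLR Pool.Agent.Helper90.PLM

namespace Pool.Agent.Helper66.PLM

variable {T : Set (Ordinal.{0} × (Ordinal.{0} → Ordinal.{0}))} {κ : Ordinal.{0}}

/-- A non-measured subset of `ω₁` in an inner model with canonical functions. -/
theorem fin_inner {M : Set ZFSet.{0}} (hM : IsInner M ∨ M = LR)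
    {x : Ordinal.{0} → Ordinal.{0}} {π : Ordinal.{0} → Ordinal.{0}} {η η' : Ordinal.{0}}
    (h1 : Stat {α | ∃ β γ, Otp (img π α η) β ∧ Otp (img π α η') γ ∧ x β = γ})
    (h2 : Stat {α | ∃ β γ, Otp (img π α η) β ∧ Otp (img π α η') γ ∧ x β ≠ γ})
    (hcan : ∀ (π : Ordinal.{0} → Ordinal.{0}) (η : Ordinal.{0}), ∃ f, IsPt f ∧ graph f ∈ M ∧
        ∃ C, IsClubIn C ∧ ∀ α ∈ C, Otp (img π α η) (f α))
    (hx : IsPt x) (hxM : graph x ∈ M) :
    ∃ a ∈ M, Stat {α | α.toZFSet ∈ a} ∧ Stat {α | α.toZFSet ∉ a} := by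
  obtain ⟨f, hf, hfM, C, hC, hCf⟩ := hcan π η
  obtain ⟨f', hf', hfM', C', hC', hCf'⟩ := hcan π η'
  refine ⟨subs (fun α => x (f α) = f' α), ?_, ?_, ?_⟩
  · rcases hM with hM | rfl
    · exact Pool.Agent.Helper59.PLM.st_INN M hM x f f' hx hf hf' hxM hfM hfM'
    · intro M' hM' hR
      exact Pool.Agent.Helper59.PLM.st_INN M' hM' x f f' hx hf hf' (hxM M' hM' hR)
        (hfM M' hM' hR) (hfM' M' hM' hR)
  · intro D hD
    obtain ⟨γ, hγ, β, δ, h3, h4, h5⟩ := h1 _ (club_inter2 hD (club_inter2 hC hC'))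
    refine ⟨γ, hγ.1, ?_⟩
    have e1 := st_OTP1 _ _ _ h3 (hCf γ hγ.2.1)
    have e2 := st_OTP1 _ _ _ h4 (hCf' γ hγ.2.2)
    change γ.toZFSet ∈ subs _
    rw [toZFSet_mem_subs (hD.1 γ hγ.1), ← e1, ← e2]
    exact h5
  · intro D hD
    obtain ⟨γ, hγ, β, δ, h3, h4, h5⟩ := h2 _ (club_inter2 hD (club_inter2 hC hC'))
    refine ⟨γ, hγ.1, ?_⟩
    have e1 := st_OTP1 _ _ _ h3 (hCf γ hγ.2.1)
    have e2 := st_OTP1 _ _ _ h4 (hCf' γ hγ.2.2)
    change γ.toZFSet ∉ subs _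
    rw [toZFSet_mem_subs (hD.1 γ hγ.1), ← e1, ← e2]
    exact h5

end Pool.Agent.Helper66.PLM
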