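import Pool.Agent.Helper66.PLM.Core2

/-! Names of stationary sets and the application of `MA⁺⁺(σ-closed)`. -/

open Ordinal Pool.Agent.Helper66.PLR Pool.Agent.Helper90.PLM

namespace Pool.Agent.Helper66.PLM

variable {T : Set (Ordinal.{0} × (Ordinal.{0} → Ordinal.{0}))} {κ : Ordinal.{0}}

lemma Frc.mono {P : Type 1} [PartialOrder P] {S : P → Ordinal.{0} → Prop} {q r : P} {α : Ordinal.{0}}
    (h : Frc S q α) (hr : r ≤ q) : Frc S r α := fun s hs => h s (hs.trans hr)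

/-- The name of a club gives a `ClubRel`. -/
lemma clubRel_of_frcClub {p0 : Cd T κ} {C : {p : Cd T κ // p ≤ p0} → Ordinal.{0} → Prop}
    (hC : FrcClub C) : ClubRel p0 (fun r α => ∃ h : r ≤ p0, Frc C ⟨r, h⟩ α) := by
  refine ⟨?_, ?_, ?_⟩
  · rintro r r' α hr ⟨h, hf⟩
    exact ⟨hr.trans h, hf.mono hr⟩
  · intro r hr β hβ
    obtain ⟨q, hq, α, h1, h2, h3⟩ := hC.unbdd β hβ ⟨r, hr⟩
    exact ⟨q.1, hq, α, h1, h2, q.2, h3⟩
  · intro l hl hlim r hr h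
    refine ⟨hr, hC.closed l hl hlim ⟨r, hr⟩ ?_⟩
    intro β hβ q hq
    obtain ⟨s, hs, α, h1, h2, h3, h4⟩ := h β hβ q.1 hq
    exact ⟨⟨s, h3⟩, hs, α, h1, h2, h4⟩

/-- The names: `α` is in, if the next splitting level is `otp (π[α] ∩ η)`, the least value there
is `otp (π[α] ∩ η')`, and the branch takes this value (`b` true) or another one (`b` false). -/
def nm (η η' : Ordinal.{0}) (b : Prop) (p : Cd T κ) (δ : Ordinal.{0}) : Prop :=
  dl T (δ, cut p.s δ) < p.len ∧ δ ≤ dl T (δ, cut p.s δ) ∧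
    Otp (img p.c δ η) (dl T (δ, cut p.s δ)) ∧ Otp (img p.c δ η') (av T (δ, cut p.s δ)) ∧
    (p.s (dl T (δ, cut p.s δ)) = av T (δ, cut p.s δ) ↔ b)

lemma img_congr {c c' : Ordinal.{0} → Ordinal.{0}} {δ η : Ordinal.{0}} (h : ∀ β < δ, c β = c' β) :
    img c δ η = img c' δ η := by
  ext ζ
  constructor
  · rintro ⟨h1, ξ, h2, h3⟩
    exact ⟨h1, ξ, h2, by rw [← h ξ h2, h3]⟩
  · rintro ⟨h1, ξ, h2, h3⟩
    exact ⟨h1, ξ, h2, by rw [h ξ h2, h3]⟩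

lemma frcStat_nm (hT : PerfectTree T) (hκ : 0 < κ) {p0 : Cd T κ} {η η' : Ordinal.{0}}
    (hG : Good p0 η η') (b : Prop) :
    FrcStat (fun (p : {p : Cd T κ // p ≤ p0}) δ => nm η η' b p.1 δ) := by
  intro C hC p
  obtain ⟨r, hrp, ⟨hr0, hrC⟩, h1, h2⟩ := hG _ (clubRel_of_frcClub hC) p.1 p.2
  have hv : ∃ v ∈ T, Ext (r.len, r.s) v ∧ dl T (r.len, r.s) < v.1 ∧
      (v.2 (dl T (r.len, r.s)) = av T (r.len, r.s) ↔ b) := by
    by_cases hb : b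
    · obtain ⟨v, a1, a2, a3, a4⟩ := av_spec hT r.mem
      exact ⟨v, a1, a2, a3, iff_of_true a4 hb⟩
    · obtain ⟨v, a1, a2, a3, a4⟩ := exists_ne_av hT r.mem
      exact ⟨v, a1, a2, a3, iff_of_false a4 hb⟩
  obtain ⟨v, hvT, hrv, hlt, hvb⟩ := hv
  obtain ⟨q, hq, hql, hqs, _⟩ := cd_ext hκ r hT.tree hvT hrv hκ
  have hq0 : q ≤ p0 := hq.trans hr0
  have hlen : r.len < ω₁ := (hT.tree.node _ r.mem).1
  have hcut : cut q.s r.len = r.s := by
    rw [cut_congr (t := r.s) (fun β hβ => hq.2.1 β hβ)]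
    exact cut_self r.szero
  have hnm : nm η η' b q r.len := by
    refine ⟨?_, ?_, ?_, ?_, ?_⟩
    · rw [hcut, hql]; exact hlt
    · rw [hcut]; exact le_dl hT r.mem
    · rw [hcut, img_congr (c' := r.c) (fun β hβ => hq.2.2 β hβ)]; exact h1
    · rw [hcut, img_congr (c' := r.c) (fun β hβ => hq.2.2 β hβ)]; exact h2
    · rw [hcut, hqs]; exact hvb
  refine ⟨⟨q, hq0⟩, hq.trans hrp, r.len, hlen, ?_, ?_⟩
  · exact hrC.mono (show (⟨q, hq0⟩ : {p : Cd T κ // p ≤ p0}) ≤ ⟨r, hr0⟩ from hq)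
  · intro s hs
    exact ⟨s, le_rfl, ⟨q, hq0⟩, hs, hnm⟩

/-- The main combinatorial theorem. -/
theorem main_comb (hsml : ST_SML) (hMA : MApp) (hκ : Erdos κ) (hT : PerfectTree T) :
    ∃ x ∈ branches T, ∃ (π : Ordinal.{0} → Ordinal.{0}) (η η' : Ordinal.{0}),
      Stat {α | ∃ β γ, Otp (img π α η) β ∧ Otp (img π α η') γ ∧ x β = γ} ∧
      Stat {α | ∃ β γ, Otp (img π α η) β ∧ Otp (img π α η') γ ∧ x β ≠ γ} := by
  classical
  obtain ⟨p0, η, η', hG⟩ := core hT hκ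
  have hκ0 : 0 < κ := by
    obtain ⟨e, _, h, _⟩ := hκ (fun _ => ∅)
    exact (zero_le (a := _)).trans_lt (h 0 (Ordinal.omega_pos 1))
  have hsm : Small.{0} (Cd T κ) := hsml T κ hT.tree.node
  have hsm' : Small.{0} {p : Cd T κ // p ≤ p0} := small_subtype (Cd T κ) _
  have hne : Nonempty {p : Cd T κ // p ≤ p0} := ⟨⟨p0, le_rfl⟩⟩
  have hlen : ∀ p : Cd T κ, p.len < ω₁ := fun p => (hT.tree.node _ p.mem).1
  obtain ⟨G, hGup, hGdir, hGD, hGS⟩ := hMA {p : Cd T κ // p ≤ p0}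
    (by
      intro f hf
      obtain ⟨q, hq, _, _⟩ := cd_lim hT.tree (fun n => (f n).1) (fun i j h => hf h)
      exact ⟨⟨q, (hq 0).trans (f 0).2⟩, fun n => hq n⟩)
    (fun β => {p | β < p.1.len})
    (by
      intro β hβ p
      obtain ⟨t, ht, ht2⟩ := node_ext hT p.1.mem (η := max p.1.len (β + 1)) (le_max_left _ _)
        (max_lt (hlen _) (add_one_lt_omega_one hβ))
      obtain ⟨q, hq, hql, _, _⟩ := cd_ext hκ0 p.1 hT.tree ht ht2 hκ0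
      refine ⟨⟨q, hq.trans p.2⟩, ?_, hq⟩
      change β < q.len
      rw [hql]
      exact (Order.lt_add_one_iff.2 le_rfl).trans_le (le_max_right _ _))
    (fun β p δ => nm η η' (β = 0) p.1 δ)
    (fun β _ => frcStat_nm hT hκ0 hG (β = 0))
  -- compatibility
  have hcomp : ∀ p ∈ G, ∀ q ∈ G, ∀ β < p.1.len, β < q.1.len →
      p.1.s β = q.1.s β ∧ p.1.c β = q.1.c β := by
    intro p hp q hq β hβ hβ'
    obtain ⟨r, _, h1, h2⟩ := hGdir p hp q hq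
    exact ⟨(h1.2.1 β hβ).symm.trans (h2.2.1 β hβ'), (h1.2.2 β hβ).symm.trans (h2.2.2 β hβ')⟩
  choose gp hgpG hgpl using fun β : Set.Iio (ω₁ : Ordinal.{0}) => hGD β.1 β.2
  set x : Ordinal.{0} → Ordinal.{0} := fun β => if h : β < ω₁ then (gp ⟨β, h⟩).1.s β else 0 with hx
  set π : Ordinal.{0} → Ordinal.{0} := fun β => if h : β < ω₁ then (gp ⟨β, h⟩).1.c β else 0 with hπ
  have hxp : ∀ p ∈ G, ∀ β < p.1.len, x β = p.1.s β ∧ π β = p.1.c β := by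
    intro p hp β hβ
    have h : β < ω₁ := hβ.trans (hlen p.1)
    simp only [hx, hπ]
    rw [dif_pos h, dif_pos h]
    exact hcomp _ (hgpG ⟨β, h⟩) p hp β (hgpl ⟨β, h⟩) hβ
  have hbr : x ∈ branches T := by
    have hmem : ∀ α < ω₁, (α, cut x α) ∈ T := by
      intro α hα
      have h1 := hgpl ⟨α, hα⟩
      have h2 := hgpG ⟨α, hα⟩
      rw [cut_congr (t := (gp ⟨α, hα⟩).1.s) (fun β hβ => (hxp _ h2 β (lt_trans hβ h1)).1)]
      exact hT.tree.down _ (gp ⟨α, hα⟩).1.mem α (le_of_lt h1)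
    refine ⟨⟨fun β hβ => ?_, fun β hβ => ?_⟩, hmem⟩
    · have h1 := (hT.tree.node _ (hmem (β + 1) (add_one_lt_omega_one hβ))).2.1 β
        (Order.lt_add_one_iff.2 le_rfl)
      change cut x (β + 1) β < ω₁ at h1
      rwa [cut_lt (Order.lt_add_one_iff.2 le_rfl)] at h1
    · simp only [hx]
      rw [dif_neg (not_lt.2 hβ)]
  have hkey : ∀ (b : Prop) (p : {p : Cd T κ // p ≤ p0}), p ∈ G → ∀ δ, nm η η' b p.1 δ →
      Otp (img π δ η) (dl T (δ, cut p.1.s δ)) ∧ Otp (img π δ η') (av T (δ, cut p.1.s δ)) ∧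
      (x (dl T (δ, cut p.1.s δ)) = av T (δ, cut p.1.s δ) ↔ b) := by
    rintro b p hp δ ⟨h1, h2, h3, h4, h5⟩
    have hδ : δ < p.1.len := h2.trans_lt h1
    have e : ∀ β < δ, π β = p.1.c β := fun β hβ => (hxp p hp β (hβ.trans hδ)).2
    rw [img_congr e, img_congr e, (hxp p hp _ h1).1]
    exact ⟨h3, h4, h5⟩
  refine ⟨x, hbr, π, η, η', ?_, ?_⟩
  · intro C hC
    obtain ⟨γ, hγ, p, hp, hnm⟩ := hGS 0 (Ordinal.omega_pos 1) C hC
    obtain ⟨h1, h2, h3⟩ := hkey _ p hp γ hnm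
    exact ⟨γ, hγ, _, _, h1, h2, h3.2 rfl⟩
  · intro C hC
    have h1lt : (1 : Ordinal.{0}) < ω₁ := by
      have := add_one_lt_omega_one (Ordinal.omega_pos 1)
      rwa [zero_add] at this
    obtain ⟨γ, hγ, p, hp, hnm⟩ := hGS 1 h1lt C hC
    obtain ⟨h1, h2, h3⟩ := hkey _ p hp γ hnm
    exact ⟨γ, hγ, _, _, h1, h2, fun h => one_ne_zero (h3.1 h)⟩

end Pool.Agent.Helper66.PLM
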