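import Pool.Agent.Helper66.PLM.Defs
import Pool.Agent.Helper66.PLR.Block

/-!
# Perfect subsets of the generalized Baire space under `MA⁺⁺(σ-closed)`: rows
-/

open Ordinal Pool.Agent.Helper66.PLR

namespace Pool.Agent.Helper66.PLM

/-! ### Row OTP: order types of sets of ordinals -/

/-- OTP1: the order type is unique. -/
def ST_OTP1 : Prop := ∀ (S : Set Ordinal.{0}) (γ γ' : Ordinal.{0}), Otp S γ → Otp S γ' → γ = γ'

/-- OTP2: if `A ⊆ κ` contains a strictly increasing `ρ`-sequence and `γ < ρ`, then some `η ∈ A` has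
exactly `γ` predecessors in `A`.  (Use `Ordinal.enumOrd (A ∪ Set.Ici κ)`.) -/
def ST_OTP2 : Prop :=
  ∀ (A : Set Ordinal.{0}) (κ ρ γ : Ordinal.{0}) (e : Ordinal.{0} → Ordinal.{0}),
    (∀ a ∈ A, a < κ) → StrictMonoOn e (Set.Iio ρ) → (∀ ξ < ρ, e ξ ∈ A) → γ < ρ →
    ∃ η ∈ A, Otp {a | a ∈ A ∧ a < η} γ

/-! ### Row HULL: terms, hulls, indiscernibles -/

/-- Terms. -/
inductive Tm : Type
  | v (n : ℕ) : Tm
  | nil : Tm
  | app (a b : Tm) : Tm
  | ap (k : ℕ) (a : Tm) : Tm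

variable {Ω : Type 1}

/-- Value (a list of objects) of a term; `j` turns ordinals into objects, `g k` are operations. -/
def ev (g : ℕ → List Ω → Ω) (j : Ordinal.{0} → Ω) (σ : ℕ → Ordinal.{0}) : Tm → List Ω
  | Tm.v n => [j (σ n)]
  | Tm.nil => []
  | Tm.app a b => ev g j σ a ++ ev g j σ b
  | Tm.ap k a => [g k (ev g j σ a)]

/-- The hull of the set `J` of ordinals under the operations `g k`. -/
def Hull (g : ℕ → List Ω → Ω) (j : Ordinal.{0} → Ω) (J : Set Ordinal.{0}) : Set Ω :=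
  {x | ∃ (τ : Tm) (σ : ℕ → Ordinal.{0}), (∀ i, σ i ∈ J) ∧ ev g j σ τ = [x]}

/-- The `n`-th element of the finite set `s` (`0` if there is none). -/
noncomputable def srt (s : Finset Ordinal.{0}) (n : ℕ) : Ordinal.{0} :=
  (s.sort (· ≤ ·)).getD n 0

/-- HULL1: the hull contains (the objects coded by) its generators. -/
def ST_HULL1 : Prop := ∀ (Ω : Type 1) (g : ℕ → List Ω → Ω) (j : Ordinal.{0} → Ω)
  (J : Set Ordinal.{0}), ∀ α ∈ J, j α ∈ Hull g j J

/-- HULL2: the hull is closed under the operations. (Combine assignments by `σ (2 i)`,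
`σ (2 i + 1)` and rename variables in terms.) -/
def ST_HULL2 : Prop := ∀ (Ω : Type 1) (g : ℕ → List Ω → Ω) (j : Ordinal.{0} → Ω)
  (J : Set Ordinal.{0}), J.Nonempty → ∀ (k : ℕ) (L : List Ω), (∀ x ∈ L, x ∈ Hull g j J) →
    g k L ∈ Hull g j J

/-- HULL3: hulls of countable sets are countable. (The value of a term depends on finitely many
variables; `Tm` is countable.) -/
def ST_HULL3 : Prop := ∀ (Ω : Type 1) (g : ℕ → List Ω → Ω) (j : Ordinal.{0} → Ω)
  (J : Set Ordinal.{0}), J.Countable → (Hull g j J).Countable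

/-- The colour of a finite set. -/
def colF {A : Type 1} (g : ℕ → List Ω → Ω) (j : Ordinal.{0} → Ω) (col : Ω → Set A)
    (s : Finset Ordinal.{0}) : Set (Tm × A) :=
  {p | ∃ x, ev g j (srt s) p.1 = [x] ∧ p.2 ∈ col x}

/-- HULL4: indiscernibility.  Let `e` be strictly increasing on `ω₁` and homogeneous for the
colouring `colF`; let the object `x` be determined by `col x` if `col x ≠ ∅`.  Then an object `x`
with `col x ≠ ∅` in the hull of `{e ξ | ξ < ρ}` is in the hull of `{e ξ | ξ < ω}`. -/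
def ST_HULL4 : Prop := ∀ (Ω A : Type 1) (g : ℕ → List Ω → Ω) (j : Ordinal.{0} → Ω)
  (col : Ω → Set A) (e : Ordinal.{0} → Ordinal.{0}), StrictMonoOn e (Set.Iio ω₁) →
  (∀ x y, (col x).Nonempty → col x = col y → x = y) →
  (∀ s t : Finset Ordinal.{0}, (∀ ξ ∈ s, ξ < ω₁) → (∀ ξ ∈ t, ξ < ω₁) → s.card = t.card →
      colF g j col (s.image e) = colF g j col (t.image e)) →
  ∀ ρ < ω₁, ∀ x ∈ Hull g j (e '' Set.Iio ρ), (col x).Nonempty →
    x ∈ Hull g j (e '' Set.Iio ω)

/-! ### Row CARD -/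

/-- CARD: an injection for the colours. (Nodes are countable sequences of countable ordinals, so
there are at most `ℵ₁ · ℵ₁ ^ ℵ₀ = 2 ^ ℵ₀` of them; `Tm` is countable.) -/
def ST_CARD : Prop :=
  ∃ i : Tm × ({u : Ordinal.{0} × (Ordinal.{0} → Ordinal.{0}) // IsNode u} ⊕ Set.Iio (ω₁ : Ordinal.{0}))
      → Set ℕ, Function.Injective i

/-! ### Conditions -/

/-- A condition `(α, s, c)`: `(α, s) ∈ T`, `c : α → κ`. -/
@[ext] structure Cd (T : Set (Ordinal.{0} × (Ordinal.{0} → Ordinal.{0}))) (κ : Ordinal.{0}) where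
  len : Ordinal.{0}
  s : Ordinal.{0} → Ordinal.{0}
  c : Ordinal.{0} → Ordinal.{0}
  mem : (len, s) ∈ T
  szero : ∀ β, len ≤ β → s β = 0
  val : ∀ β < len, c β < κ
  zero : ∀ β, len ≤ β → c β = 0

/-- `p ≤ q`: the condition `p` extends `q`. -/
instance (T : Set (Ordinal.{0} × (Ordinal.{0} → Ordinal.{0}))) (κ : Ordinal.{0}) : LE (Cd T κ) :=
  ⟨fun p q => q.len ≤ p.len ∧ (∀ β < q.len, p.s β = q.s β) ∧ ∀ β < q.len, p.c β = q.c β⟩

/-- SML: the conditions form a set. -/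
def ST_SML : Prop := ∀ (T : Set (Ordinal.{0} × (Ordinal.{0} → Ordinal.{0}))) (κ : Ordinal.{0}),
  (∀ p ∈ T, IsNode p) → Small.{0} (Cd T κ)

/-! ### Row INN: decoding in an inner model -/

/-- INN: composition in an inner model. (As `cmp_mem` in `PLR/Cont.lean`.) -/
def ST_INN : Prop := ∀ M : Set ZFSet.{0}, IsInner M → ∀ x f f' : Ordinal.{0} → Ordinal.{0},
  IsPt x → IsPt f → IsPt f' → graph x ∈ M → graph f ∈ M → graph f' ∈ M →
    subs (fun α => x (f α) = f' α) ∈ M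

end Pool.Agent.Helper66.PLM
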