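import Pool.Agent.Helper66.PLM.Stmts

/-! Splitting levels, the order on conditions. -/

open Ordinal Pool.Agent.Helper66.PLR

namespace Pool.Agent.Helper66.PLM

variable {T : Set (Ordinal.{0} × (Ordinal.{0} → Ordinal.{0}))} {κ : Ordinal.{0}}

/-- the level of the first splitting above `u` -/
noncomputable def dl (T : Set (Ordinal.{0} × (Ordinal.{0} → Ordinal.{0})))
    (u : Ordinal.{0} × (Ordinal.{0} → Ordinal.{0})) : Ordinal.{0} :=
  sInf {β | ∃ v ∈ T, ∃ w ∈ T, Ext u v ∧ Ext u w ∧ β < v.1 ∧ β < w.1 ∧ v.2 β ≠ w.2 β}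

/-- the least value at the first splitting above `u` -/
noncomputable def av (T : Set (Ordinal.{0} × (Ordinal.{0} → Ordinal.{0})))
    (u : Ordinal.{0} × (Ordinal.{0} → Ordinal.{0})) : Ordinal.{0} :=
  sInf {γ | ∃ v ∈ T, Ext u v ∧ dl T u < v.1 ∧ v.2 (dl T u) = γ}

lemma ext_of_cut {p q : Ordinal.{0} × (Ordinal.{0} → Ordinal.{0})} (h1 : p.1 ≤ q.1)
    (h2 : cut q.2 p.1 = p.2) : Ext p q :=
  ⟨h1, fun β hβ => by rw [← h2, cut_lt hβ]⟩

lemma dl_spec (hT : PerfectTree T) {u : Ordinal.{0} × (Ordinal.{0} → Ordinal.{0})} (hu : u ∈ T) :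
    ∃ v ∈ T, ∃ w ∈ T, Ext u v ∧ Ext u w ∧ dl T u < v.1 ∧ dl T u < w.1 ∧
      v.2 (dl T u) ≠ w.2 (dl T u) := by
  have hne : {β | ∃ v ∈ T, ∃ w ∈ T, Ext u v ∧ Ext u w ∧ β < v.1 ∧ β < w.1 ∧
      v.2 β ≠ w.2 β}.Nonempty := by
    obtain ⟨q, hq, r, hr, h1, h2, h3, h4, β, h5, h6, h7⟩ := hT.perfect u hu
    exact ⟨β, q, hq, r, hr, ext_of_cut h1 h2, ext_of_cut h3 h4, h5, h6, h7⟩
  exact csInf_mem hne

lemma dl_lt (hT : PerfectTree T) {u : Ordinal.{0} × (Ordinal.{0} → Ordinal.{0})} (hu : u ∈ T) :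
    dl T u < ω₁ := by
  obtain ⟨v, hv, w, hw, _, _, h, _, _⟩ := dl_spec hT hu
  exact h.trans (hT.tree.node v hv).1

lemma av_spec (hT : PerfectTree T) {u : Ordinal.{0} × (Ordinal.{0} → Ordinal.{0})} (hu : u ∈ T) :
    ∃ v ∈ T, Ext u v ∧ dl T u < v.1 ∧ v.2 (dl T u) = av T u := by
  have hne : {γ | ∃ v ∈ T, Ext u v ∧ dl T u < v.1 ∧ v.2 (dl T u) = γ}.Nonempty := by
    obtain ⟨v, hv, w, hw, h1, _, h3, _, _⟩ := dl_spec hT hu
    exact ⟨_, v, hv, h1, h3, rfl⟩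
  exact csInf_mem hne

lemma av_lt (hT : PerfectTree T) {u : Ordinal.{0} × (Ordinal.{0} → Ordinal.{0})} (hu : u ∈ T) :
    av T u < ω₁ := by
  obtain ⟨v, hv, _, h2, h3⟩ := av_spec hT hu
  rw [← h3]
  exact (hT.tree.node v hv).2.1 _ h2

lemma exists_ne_av (hT : PerfectTree T) {u : Ordinal.{0} × (Ordinal.{0} → Ordinal.{0})}
    (hu : u ∈ T) : ∃ v ∈ T, Ext u v ∧ dl T u < v.1 ∧ v.2 (dl T u) ≠ av T u := by
  obtain ⟨v, hv, w, hw, h1, h2, h3, h4, h5⟩ := dl_spec hT hu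
  by_cases h : v.2 (dl T u) = av T u
  · exact ⟨w, hw, h2, h4, fun h' => h5 (h.trans h'.symm)⟩
  · exact ⟨v, hv, h1, h3, h⟩

lemma le_dl (hT : PerfectTree T) {u : Ordinal.{0} × (Ordinal.{0} → Ordinal.{0})} (hu : u ∈ T) :
    u.1 ≤ dl T u := by
  obtain ⟨v, hv, w, hw, h1, h2, h3, h4, h5⟩ := dl_spec hT hu
  by_contra h
  push Not at h
  exact h5 ((h1.2 _ h).trans (h2.2 _ h).symm)

lemma perf_ext (hT : PerfectTree T) :
    ∀ p ∈ T, ∃ q ∈ T, p.1 < q.1 ∧ ∀ β < p.1, q.2 β = p.2 β := by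
  intro p hp
  obtain ⟨v, hv, _, _, h1, _, h3, _, _⟩ := dl_spec hT hp
  exact ⟨v, hv, (le_dl hT hp).trans_lt h3, h1.2⟩

/-- nodes of all lengths above a node -/
lemma node_ext (hT : PerfectTree T) {p : Ordinal.{0} × (Ordinal.{0} → Ordinal.{0})} (hp : p ∈ T)
    {η : Ordinal.{0}} (hη : p.1 ≤ η) (hη1 : η < ω₁) : ∃ t, (η, t) ∈ T ∧ Ext p (η, t) :=
  ext_len hT.tree (perf_ext hT) hp hη hη1

instance (T : Set (Ordinal.{0} × (Ordinal.{0} → Ordinal.{0}))) (κ : Ordinal.{0}) :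
    PartialOrder (Cd T κ) where
  le_refl p := ⟨le_rfl, fun _ _ => rfl, fun _ _ => rfl⟩
  le_trans p q r h h' := ⟨h'.1.trans h.1, fun β hβ => (h.2.1 β (hβ.trans_le h'.1)).trans (h'.2.1 β hβ),
    fun β hβ => (h.2.2 β (hβ.trans_le h'.1)).trans (h'.2.2 β hβ)⟩
  le_antisymm p q h h' := by
    have e : p.len = q.len := le_antisymm h'.1 h.1
    refine Cd.ext e ?_ ?_
    · funext β
      by_cases hβ : β < q.len
      · exact h.2.1 β hβ
      · rw [q.szero β (not_lt.1 hβ), p.szero β (e ▸ not_lt.1 hβ)]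
    · funext β
      by_cases hβ : β < q.len
      · exact h.2.2 β hβ
      · rw [q.zero β (not_lt.1 hβ), p.zero β (e ▸ not_lt.1 hβ)]

lemma le_def {p q : Cd T κ} : p ≤ q ↔
    q.len ≤ p.len ∧ (∀ β < q.len, p.s β = q.s β) ∧ ∀ β < q.len, p.c β = q.c β := Iff.rfl

/-- extension of a condition along a given node -/
lemma cd_ext (hκ : 0 < κ) (q : Cd T κ) (hT : ClosedTree T) {u : Ordinal.{0} × (Ordinal.{0} → Ordinal.{0})}
    (hu : u ∈ T) (hqu : Ext (q.len, q.s) u) {γ : Ordinal.{0}} (hγ : γ < κ) :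
    ∃ p : Cd T κ, p ≤ q ∧ p.len = u.1 ∧ p.s = u.2 ∧ (q.len < u.1 → p.c q.len = γ) := by
  classical
  refine ⟨⟨u.1, u.2, fun β => if β < q.len then q.c β else if β = q.len ∧ q.len < u.1 then γ else 0,
    hu, (hT.node u hu).2.2, ?_, ?_⟩, ⟨hqu.1, hqu.2, ?_⟩, rfl, rfl, ?_⟩
  · intro β hβ
    by_cases h1 : β < q.len
    · simp only [h1, if_true]; exact q.val β h1
    · simp only [h1, if_false]
      split_ifs
      · exact hγ
      · exact hκ
  · intro β hβ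
    have h1 : ¬ β < q.len := not_lt.2 (hqu.1.trans hβ)
    simp only [h1, if_false]
    rw [if_neg]
    rintro ⟨h2, h3⟩
    exact absurd (h2 ▸ hβ) (not_le.2 h3)
  · intro β hβ
    simp only [hβ, if_true]
  · intro h
    simp [h]

/-- the limit of a decreasing sequence of conditions -/
lemma cd_lim (hT : ClosedTree T) (f : ℕ → Cd T κ) (hf : Antitone f) :
    ∃ q : Cd T κ, (∀ n, q ≤ f n) ∧ q.len = ⨆ n, (f n).len ∧
      ∀ β < q.len, ∃ n, β < (f n).len ∧ q.s β = (f n).s β ∧ q.c β = (f n).c β := by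
  classical
  have hb : BddAbove (Set.range fun n => (f n).len) :=
    ⟨ω₁, by rintro _ ⟨i, rfl⟩; exact (hT.node _ (f i).mem).1.le⟩
  have hch : ∀ i j, (f i).len ≤ (f j).len → ∀ β < (f i).len, (f j).s β = (f i).s β := by
    intro i j hij β hβ
    rcases le_total i j with h | h
    · exact (hf h).2.1 β hβ
    · exact ((hf h).2.1 β (hβ.trans_le hij)).symm
  have hchc : ∀ i j, ∀ β < (f i).len, β < (f j).len → (f j).c β = (f i).c β := by
    intro i j β hβ hβ'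
    rcases le_total i j with h | h
    · exact (hf h).2.2 β hβ
    · exact ((hf h).2.2 β hβ').symm
  have hlt : (⨆ n, (f n).len) < ω₁ := Ordinal.iSup_lt_omega_one (fun n => (hT.node _ (f n).mem).1)
  obtain ⟨u, hu, hu2⟩ := union_TB hT (fun n => (f n).len) (fun n => (f n).s)
    (fun n => tb_of_mem hT (f n).mem) hch
  have hex : ∀ β < (⨆ n, (f n).len), ∃ n, β < (f n).len := fun β hβ => (lt_ciSup_iff hb).1 hβ
  set c : Ordinal.{0} → Ordinal.{0} := fun β =>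
    if h : ∃ n, β < (f n).len then (f h.choose).c β else 0 with hc
  have hcn : ∀ n, ∀ β < (f n).len, c β = (f n).c β := by
    intro n β hβ
    have h : ∃ n, β < (f n).len := ⟨n, hβ⟩
    simp only [hc]
    rw [dif_pos h]
    exact hchc n _ β hβ h.choose_spec
  refine ⟨⟨⨆ n, (f n).len, u, c, hu.mem hlt, hu.2.1, ?_, ?_⟩, ?_, rfl, ?_⟩
  · intro β hβ
    obtain ⟨n, hn⟩ := hex β hβ
    rw [hcn n β hn]
    exact (f n).val β hn
  · intro β hβ
    simp only [hc]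
    rw [dif_neg]
    rintro ⟨n, hn⟩
    exact absurd (hn.trans_le (le_ciSup hb n)) (not_lt.2 hβ)
  · intro n
    exact ⟨le_ciSup hb n, hu2 n, hcn n⟩
  · intro β hβ
    obtain ⟨n, hn⟩ := hex β hβ
    exact ⟨n, hn, hu2 n β hn, hcn n β hn⟩

end Pool.Agent.Helper66.PLM
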